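import Pool.Agent.H484.AL.Stm

namespace Pool.Agent.H484.AL

open Finset
open scoped Classical

theorem t_ONE (hSINGLE : S_SINGLE) (hKAP : S_KAP) : S_ONE := by
  intro e B g M a0 J α hR t j ht hj l hl
  obtain ⟨_, _, hk3, hk4⟩ := hKAP e B g M a0 J α hR t j ht hj
  set κ := kap e (g * M) B t j with hκ
  have he := hR.he
  have hB := hR.hB
  have hJ := hR.hJ
  have hB1 : 1 ≤ B := by omega
  have hB5 : 1 ≤ B ^ (5 * J) := Nat.one_le_pow _ _ hB1
  have hM1 : 1 ≤ M := by omega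
  have hκM : κ ≤ M := by
    have : κ ≤ 4 * B ^ (5 * J) * κ := Nat.le_mul_of_pos_left _ (by positivity)
    omega
  let i0 : Fin e := ⟨0, by omega⟩
  unfold Lset at hl
  rw [mem_filter, Fintype.mem_piFinset] at hl
  obtain ⟨hl1, hl2⟩ := hl
  have hl0 := hl1 i0
  rw [mem_Ico] at hl0
  unfold jset at hj
  rw [Fintype.mem_piFinset] at hj
  have hj0 := hj i0
  rw [mem_Ico] at hj0
  have hpos : 1 ≤ l i0 := le_trans (Nat.one_le_pow _ _ hB1) hl0.1
  have hlt : l i0 ≤ 2 * B ^ (5 * J) := by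
    have : B ^ (j i0) ≤ B ^ (5 * J) := Nat.pow_le_pow_right hB1 (by omega)
    omega
  have hkey : l i0 * B ^ J ≤ κ := by
    have h1 : l i0 * B ^ J ≤ 2 * B ^ (5 * J) * B ^ J := Nat.mul_le_mul_right _ hlt
    have h2 : 2 * B ^ (5 * J) * B ^ J ≤ B ^ 1 * B ^ (5 * J) * B ^ J := by
      apply Nat.mul_le_mul_right
      apply Nat.mul_le_mul_right
      simpa using (by omega : 2 ≤ B)
    have h3 : B ^ 1 * B ^ (5 * J) * B ^ J = B ^ (1 + 5 * J + J) := by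
      rw [pow_add, pow_add]
    have h4 : B ^ (1 + 5 * J + J) ≤ B ^ (34 * e * J) := by
      apply Nat.pow_le_pow_right hB1
      nlinarith [Nat.mul_le_mul_right J (Nat.mul_le_mul_left 34 he)]
    calc l i0 * B ^ J ≤ 2 * B ^ (5 * J) * B ^ J := h1
      _ ≤ B ^ 1 * B ^ (5 * J) * B ^ J := h2
      _ = B ^ (1 + 5 * J + J) := h3
      _ ≤ B ^ (34 * e * J) := h4
      _ ≤ κ := hk3
  obtain ⟨hu, hd⟩ := hSINGLE e g M a0 α l κ κ i0 hR.hg hM1 hR.ha hκM hpos hl2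
  have hBr : (0 : ℝ) < (B : ℝ) ^ J := by
    have : (0 : ℝ) < (B : ℝ) := by exact_mod_cast hB1
    positivity
  have hlr : (l i0 : ℝ) ≤ 1 / (B : ℝ) ^ J * (κ : ℝ) := by
    rw [one_div, inv_mul_eq_div, le_div_iff₀ hBr]
    exact_mod_cast hkey
  have hMr : (0 : ℝ) ≤ (M : ℝ) ^ (e - 1) := by positivity
  unfold EvC
  rw [← hκ]
  constructor
  · have hu' : ((univ.filter (fun b : Fin e → Fin M =>
        Ev e g M a0 α (fun i => (b i : ℕ)) l κ κ)).card : ℝ)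
        ≤ ((κ : ℝ) + (l i0 : ℝ)) * (M : ℝ) ^ (e - 1) := by exact_mod_cast hu
    refine hu'.trans ?_
    apply mul_le_mul_of_nonneg_right _ hMr
    linarith
  · have hd' : (κ : ℝ) * (M : ℝ) ^ (e - 1) ≤ ((univ.filter (fun b : Fin e → Fin M =>
        Ev e g M a0 α (fun i => (b i : ℕ)) l κ κ)).card : ℝ)
        + (l i0 : ℝ) * (M : ℝ) ^ (e - 1) := by exact_mod_cast hd
    have : (l i0 : ℝ) * (M : ℝ) ^ (e - 1) ≤ (1 / (B : ℝ) ^ J * (κ : ℝ)) * (M : ℝ) ^ (e - 1) :=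
      mul_le_mul_of_nonneg_right hlr hMr
    nlinarith [this, hd']

end Pool.Agent.H484.AL
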